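import Pool.Agent.H30.LT.Targets

/-!
# MP_70ba79_ag, row GFN: generating functions
-/

set_option autoImplicit false

namespace Pool.Agent.H60.LT.GFN

open Pool.Agent.H30.LT

private theorem diff {f g : ℕ → ℕ} {z : ℝ} (hz0 : 0 < z) (h0 : f 0 ≤ g 0)
    (h1 : ∀ M, f (M + 1) + g M ≤ g (M + 1)) (hg : Summable fun M => (g M : ℝ) * z ^ M) :
    (Summable fun M => (f M : ℝ) * z ^ M) ∧
      ∑' M, (f M : ℝ) * z ^ M ≤ (1 - z) * ∑' M, (g M : ℝ) * z ^ M := by
  have hfg : ∀ M, f M ≤ g M := by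
    intro M
    cases M with
    | zero => exact h0
    | succ M => exact (Nat.le_add_right _ _).trans (h1 M)
  have hf : Summable fun M => (f M : ℝ) * z ^ M := by
    refine Summable.of_nonneg_of_le (fun M => by positivity) (fun M => ?_) hg
    exact mul_le_mul_of_nonneg_right (by exact_mod_cast hfg M) (by positivity)
  refine ⟨hf, ?_⟩
  have hg1 : Summable fun M => (g (M + 1) : ℝ) * z ^ (M + 1) := (summable_nat_add_iff 1).2 hg
  have hf1 : Summable fun M => (f (M + 1) : ℝ) * z ^ (M + 1) := (summable_nat_add_iff 1).2 hf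
  have e1 := hf.tsum_eq_zero_add
  have e2 := hg.tsum_eq_zero_add
  have h2 : ∑' M, (f (M + 1) : ℝ) * z ^ (M + 1) ≤
      ∑' M, ((g (M + 1) : ℝ) * z ^ (M + 1) - z * ((g M : ℝ) * z ^ M)) := by
    refine hf1.tsum_le_tsum (fun M => ?_) (hg1.sub (hg.mul_left z))
    have h3 : (f (M + 1) : ℝ) + g M ≤ g (M + 1) := by exact_mod_cast h1 M
    have h4 : ((f (M + 1) : ℝ) + g M) * z ^ (M + 1) ≤ g (M + 1) * z ^ (M + 1) :=
      mul_le_mul_of_nonneg_right h3 (by positivity)
    have h5 : z * ((g M : ℝ) * z ^ M) = g M * z ^ (M + 1) := by ring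
    rw [h5]
    linarith
  rw [hg1.tsum_sub (hg.mul_left z), tsum_mul_left] at h2
  have h6 : (f 0 : ℝ) ≤ g 0 := by exact_mod_cast h0
  simp only [pow_zero, mul_one] at e1 e2
  rw [e1]
  linarith

theorem pf_GFN : T_GFN := by
  intro h ρ x A z q hz0 hz1 hA hs h1 h2 h3 h4
  have hle : ∀ j M, h j M ≤ h 0 M := by
    intro j
    induction j with
    | zero => exact fun M => le_rfl
    | succ j ih => exact fun M => (h1 j M).trans (ih M)
  have hsum : ∀ j, Summable fun M => (h j M : ℝ) * z ^ M := by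
    intro j
    refine Summable.of_nonneg_of_le (fun M => by positivity) (fun M => ?_) hs
    exact mul_le_mul_of_nonneg_right (by exact_mod_cast hle j M) (by positivity)
  refine ⟨hsum q, ?_⟩
  have hstep : ∀ j, (1 - A * (1 - z) ^ 2) * ∑' M, (h j M : ℝ) * z ^ M ≤
      ∑' M, (h (j + 1) M : ℝ) * z ^ M := by
    intro j
    obtain ⟨hx, hx1⟩ := diff hz0 (h3 j).2 (fun M => (h4 j M).2) (hsum j)
    obtain ⟨hρ, hρ1⟩ := diff hz0 (h3 j).1 (fun M => (h4 j M).1) hx
    have h5 : ∑' M, (h j M : ℝ) * z ^ M ≤ ∑' M, (h (j + 1) M : ℝ) * z ^ M +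
        A * ∑' M, (ρ j M : ℝ) * z ^ M := by
      rw [← tsum_mul_left, ← (hsum (j + 1)).tsum_add (hρ.mul_left _)]
      refine (hsum j).tsum_le_tsum (fun M => ?_) ((hsum (j + 1)).add (hρ.mul_left _))
      have h6 : (h j M : ℝ) ≤ h (j + 1) M + A * ρ j M := by exact_mod_cast h2 j M
      calc (h j M : ℝ) * z ^ M ≤ (h (j + 1) M + A * ρ j M) * z ^ M :=
            mul_le_mul_of_nonneg_right h6 (by positivity)
        _ = _ := by ring
    have h7 : A * ∑' M, (ρ j M : ℝ) * z ^ M ≤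
        A * ((1 - z) * ((1 - z) * ∑' M, (h j M : ℝ) * z ^ M)) := by
      refine mul_le_mul_of_nonneg_left (hρ1.trans ?_) (Nat.cast_nonneg _)
      exact mul_le_mul_of_nonneg_left hx1 (by linarith)
    have h8 : (1 - A * (1 - z) ^ 2) * ∑' M, (h j M : ℝ) * z ^ M =
        ∑' M, (h j M : ℝ) * z ^ M - A * ((1 - z) * ((1 - z) * ∑' M, (h j M : ℝ) * z ^ M)) := by
      ring
    rw [h8]
    linarith
  have hfac : 0 ≤ 1 - A * (1 - z) ^ 2 := by linarith
  induction q with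
  | zero => simp
  | succ q ih =>
    calc (1 - A * (1 - z) ^ 2) ^ (q + 1) * ∑' M, (h 0 M : ℝ) * z ^ M
        = (1 - A * (1 - z) ^ 2) * ((1 - A * (1 - z) ^ 2) ^ q * ∑' M, (h 0 M : ℝ) * z ^ M) := by
          ring
      _ ≤ (1 - A * (1 - z) ^ 2) * ∑' M, (h q M : ℝ) * z ^ M :=
          mul_le_mul_of_nonneg_left ih hfac
      _ ≤ _ := hstep q

end Pool.Agent.H60.LT.GFN
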