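import Pool.Agent.H30.LT.Targets

/-!
# MP_70ba79_ag, row STP: the step
-/

set_option autoImplicit false

namespace Pool.Agent.H60.LT.STP

open MvPolynomial SC Pool.Agent.H27.LV Pool.Agent.H30.AV Pool.Agent.H30.AW Pool.Agent.H30.AX
  Pool.Agent.H30.LT Cardinal

attribute [local instance] MvPolynomial.algebraMvPolynomial

private theorem rkI_le {R 𝔸 τ : Type} [CommRing R] [IsDomain R] [CommRing 𝔸] [IsDomain 𝔸]
    [Algebra R 𝔸] (hRCO : T_RCO) (V : Submodule R 𝔸) (hinj : Function.Injective (algebraMap R 𝔸))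
    (hV : Module.rank R V < ℵ₀) (J : Ideal (MvPolynomial τ 𝔸)) :
    rkI V J ≤ Module.finrank R V := by
  have h1 := hRCO R 𝔸 τ V hinj hV
  have h2 : Module.finrank R V = Module.finrank (MvPolynomial τ R) (cof τ V) := by
    unfold Module.finrank
    rw [h1]
  rw [h2]
  unfold rkI Module.finrank
  refine Cardinal.toNat_le_toNat (Submodule.rank_mono inf_le_left) ?_
  rw [h1]
  exact hV

private theorem mul_mem {k F : Type} [Field k] [Field F] [Algebra k F] {n : ℕ} (W : Zw n → F)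
    (w q M : ℕ) (r : Zw n) (u : MvPolynomial (Lw q n) F) (hu : u ∈ VM k W w q M) :
    C (W r) * u ∈ VM k W w q (M + 1) := by
  refine ⟨fun m => ?_, ?_⟩
  · have h1 : coeff m u ∈ Uf k W M := hu.1 m
    rw [coeff_C_mul]
    obtain ⟨f, hf, hfe⟩ := h1
    refine ⟨X r * f, ?_, ?_⟩
    · have h2 : f.IsHomogeneous M := hf
      have h3 := (isHomogeneous_X k r).mul h2
      rw [add_comm] at h3
      exact h3
    · rw [← hfe]
      simp
  · have h1 : u ∈ ⨅ i, nI W q i ^ w := hu.2
    exact Ideal.mul_mem_left _ _ h1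

theorem pf_STP (hABS : T_ABS) (hFIN : T_FIN) (hTRF : T_TRF) (hRCO : T_RCO) : T_STP := by
  intro k F _ _ _ _ n W hW hW0 w q
  obtain ⟨⟨p, p'⟩, hp⟩ : ∃ s, W s ≠ 0 := by
    by_contra hcon
    push Not at hcon
    exact hW0 (funext hcon)
  haveI : CharZero F := charZero_of_injective_algebraMap (algebraMap k F).injective
  have hinj : Function.Injective
      (algebraMap (MvPolynomial (Lw q n) k) (MvPolynomial (Lw q n) F)) :=
    MvPolynomial.map_injective _ (algebraMap k F).injective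
  have hu : IsUnit (C (W (p', p)) : MvPolynomial (Lw q n) F) := by
    refine IsUnit.map C (IsUnit.mk0 _ ?_)
    rw [hW.2.1 p' p]
    exact neg_ne_zero.2 hp
  have hu' : IsUnit (C (W (p, p')) : MvPolynomial (Lw q n) F) := IsUnit.map C (IsUnit.mk0 _ hp)
  refine ⟨fun M => ?_, ?_⟩
  · rw [hTRF k F n W p p' hW hp w q M]
    exact rkI_le hRCO _ hinj (hFIN k F n W w q M).1 _
  · obtain ⟨ρ, x, h1, h2, h3, h4⟩ := hABS (MvPolynomial (Lw q n) k) (MvPolynomial (Lw q n) F)
      (Fin (n + 1)) (fun M => VM k W w q M) p p' (fun t => C (W (p', t))) (fun t => C (W (p, t)))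
      hinj (fun M => (hFIN k F n W w q M).1) hu (by simp [hW.1 p']) hu' (by simp [hW.1 p])
      (fun M s u hu => ⟨mul_mem W w q M _ u hu, mul_mem W w q M _ u hu⟩) w
    refine ⟨ρ, x, fun M => ?_, h2, h3, h4⟩
    rw [hTRF k F n W p p' hW hp w q M]
    exact h1 M

end Pool.Agent.H60.LT.STP
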